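import Pool.Agent.N53.CF.All
import Pool.Agent.N18.KM.Base
import Pool.Agent.Results.MP_e573c6_ag.MetricSequences

/-!
# MP_e573c6_ag: Zilber-Pink for families of curves in `Y(1)^n` at algebraic parameters of all degrees,
along the convergents of continued fraction normal numbers

The families `F`, the members `X_t = member F lam t ⊂ Y(1)^n`, and the property `ZilberPink Γ X_t` (only
finitely many points of `X_t` are on special subvarieties of codimension at least two, and each proper
special subvariety contains only finitely many points of `X_t`) are those of the starting file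
`FamiliesAlmostAllParameters`: one-parameter families of curves of any genus and any degree, not
necessarily isotrivial, which tend to the cusp `(∞, ..., ∞)` for `t → ∞` in general position
(`GoodOrigin F`).

**Parameters.** `Controlled F lam Γ m u` (starting file `RandomOrbits` of this page) means: the members
`X_t` satisfy `ZilberPink` for all algebraic numbers `t` of any degree `d ≥ 1` which are roots of some
polynomial with integral coefficients, of degree `d`, whose leading coefficient is a multiple of `m`,
and whose next coefficient divides a power of `u`. The other coefficients are arbitrary.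

**Theorem.** Let `α` in `(0, 1)` be a continued fraction normal number (`IsNormal`: irrational, and its
orbit under the Gauss map `x ↦ 1/x - ⌊1/x⌋` is distributed according to the Gauss measure
`dx / ((1 + x) log 2)`), and let `p_k / q_k` be its convergents. There is ONE set `E` of natural density
zero such that for **all** families `F`, `lam`, all finite sets `Γ` of algebraic numbers, and all
polynomials `f`, `g` in two variables with integral coefficients such that `f = 0` has many points outside
of `g = 0` modulo primes (`Rich f g`: `f` is of degree one in one of the variables and coprime to `g` with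
respect to it, or `f ≠ 0` and the sum over the primes `p` of the number of the zeros of `f` modulo `p`
which are not zeros of `g`, divided by `p ^ 2`, diverges), `Controlled F lam Γ (f(p_k, q_k)) (g(p_k, q_k))`
is true for all but finitely many `k ∉ E`. The condition on `f`, `g` is true for all linearly independent
linear forms (third part of the result).

For example (`f = q`, `g = p`) the members `X_t` at all the rational numbers `t = p_k ^ j / q_k`, and at all
the algebraic numbers `t` of any degree `d` which satisfy an equation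
`q_k t ^ d + p_k t ^ (d - 1) + a_2 t ^ (d - 2) + … + a_d = 0` with arbitrary integers `a_2, …, a_d`, satisfy
Zilber-Pink, for all but finitely many `k ∉ E`.

Almost all numbers in `(0, 1)` are normal (first part of the result), and there are explicit normal
numbers (Adler, Keane and Smorodinsky). The condition on `α` does not depend on the families, and `E` does
not depend on the family, the number of the factors, the degrees of the curves, of the `lam_l` and of
`t`, on `f`, `g` or on `Γ`. The number of convergents with `q_k ≤ X` is `O(log X)`.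

The proof: the vectors `c` for which `f(c) = 0` or no prime `p > D` divides `f(c)` but not `g(c)` are a
pronull set (its closure in the product of the `ℤ_p ^ 2`, `p` prime to `M`, has measure zero for all `M`),
and by the project CF of helper53 (leaves by helpers 51, 279, 588, 614, 645 and 951) the convergents of a
normal number are in a pronull set only for a set of indices of density zero.
-/

set_option autoImplicit false

namespace Pool.Agent.Results.MP_e573c6_ag.ConvergentsOfNormalNumbers

open MvPolynomial MeasureTheory Filter Topology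
open Pool.Agent.Results.MP_e573c6_ag.FamiliesAlmostAllParameters
open Pool.Agent.Results.MP_e573c6_ag.RandomOrbits (Controlled exists_bound)

/-- The Gauss map `x ↦ 1/x - ⌊1/x⌋`. -/
noncomputable def gaussMap (x : ℝ) : ℝ := Int.fract x⁻¹

/-- The real number `α` is continued fraction normal: it is an irrational number in `(0, 1)`, and its
orbit under the Gauss map is distributed according to the Gauss measure. -/
def IsNormal (α : ℝ) : Prop :=
  Irrational α ∧ α ∈ Set.Ioo (0 : ℝ) 1 ∧ ∀ t : ℝ, 0 ≤ t → t ≤ 1 →
    Tendsto (fun N : ℕ => (({n : ℕ | n < N ∧ gaussMap^[n] α < t}.ncard : ℕ) : ℝ) / (N : ℝ)) atTop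
      (𝓝 (Real.log (1 + t) / Real.log 2))

/-- The partial quotients: `α = [0; quotient α 0, quotient α 1, …]`. -/
noncomputable def quotient (α : ℝ) (n : ℕ) : ℕ := ⌊(gaussMap^[n] α)⁻¹⌋₊

/-- The numerators and denominators `((p, q), (p', q'))` of the convergents number `n - 1` and `n`. -/
noncomputable def consecutive (α : ℝ) : ℕ → (ℤ × ℤ) × (ℤ × ℤ)
  | 0 => ((1, 0), (0, 1))
  | n + 1 => ((consecutive α n).2,
      ((quotient α n : ℤ) * (consecutive α n).2.1 + (consecutive α n).1.1,
        (quotient α n : ℤ) * (consecutive α n).2.2 + (consecutive α n).1.2))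

/-- The vector `(p, q)` of numerator and denominator of the convergent
`p / q = [0; quotient α 0, …, quotient α (n - 1)]` of `α`. -/
noncomputable def convergent (α : ℝ) (n : ℕ) : Fin 2 → ℤ :=
  ![(consecutive α n).2.1, (consecutive α n).2.2]

/-- `f` is of degree one in the variable `i`, and coprime to `g` with respect to this variable. -/
def LinearIn (i : Fin 2) (f g : MvPolynomial (Fin 2) ℤ) : Prop :=
  ∃ a b u v R : MvPolynomial (Fin 2) ℤ, i ∉ a.vars ∧ i ∉ b.vars ∧ i ∉ R.vars ∧ a ≠ 0 ∧
    R ≠ 0 ∧ f = a * X i + b ∧ u * f + v * g = R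

/-- The curve `f = 0` has many points outside of `g = 0` modulo primes: `f` is of degree one in
a variable and coprime to `g`, or the sum over the primes `p` of the densities of the points of `f = 0`
outside of `g = 0` modulo `p` diverges. -/
def Rich (f g : MvPolynomial (Fin 2) ℤ) : Prop :=
  (∃ i, LinearIn i f g) ∨ (f ≠ 0 ∧ ¬ Summable fun p : ℕ => if p.Prime then
    ({v : Fin 2 → ZMod p | aeval v f = 0 ∧ aeval v g ≠ 0}.ncard : ℝ) / (p : ℝ) ^ 2 else 0)

/-- The linear form with the coefficients `u`. -/
noncomputable def form (u : Fin 2 → ℤ) : MvPolynomial (Fin 2) ℤ := C (u 0) * X 0 + C (u 1) * X 1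

/-- For one set `E` of natural density zero, all families `F`, `lam`, all finite sets `Γ` of algebraic
numbers and all `f`, `g` with `Rich f g`: `Controlled F lam Γ (f (c k)) (g (c k))` for all but finitely
many `k` outside `E`. -/
def OneNullSet (c : ℕ → Fin 2 → ℤ) : Prop :=
  ∃ E : Set ℕ,
    Tendsto (fun N : ℕ => (({k : ℕ | k < N ∧ k ∈ E}.ncard : ℕ) : ℝ) / (N : ℝ)) atTop (𝓝 0) ∧
    ∀ (n : ℕ) (κ : Type) [Finite κ]
      (F : κ → MvPolynomial (Fin n × Bool) (Polynomial (algebraicClosure ℚ ℂ))), GoodOrigin F →
      ∀ lam : Fin n → Polynomial (algebraicClosure ℚ ℂ), (∀ l, 0 < (lam l).natDegree) →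
      ∀ Γ : Finset ℂ, (∀ γ ∈ Γ, IsAlgebraic ℚ γ) →
      ∀ f g : MvPolynomial (Fin 2) ℤ, Rich f g →
        ∃ K : ℕ, ∀ k, K ≤ k → k ∉ E →
          Controlled F lam (Γ : Set ℂ) (eval (c k) f) (eval (c k) g)

theorem consecutive_eq (α : ℝ) (n : ℕ) :
    consecutive α n = Pool.Agent.N53.CF.cv (Pool.Agent.W811.Stu.dig α) n := by
  induction n with
  | zero => rfl
  | succ n ih =>
    show ((consecutive α n).2,
      ((quotient α n : ℤ) * (consecutive α n).2.1 + (consecutive α n).1.1,
        (quotient α n : ℤ) * (consecutive α n).2.2 + (consecutive α n).1.2)) = _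
    rw [ih]
    rfl

theorem rich_linear {i : Fin 2} {f g : MvPolynomial (Fin 2) ℤ} (h : LinearIn i f g) :
    f ≠ 0 ∧ Pool.Agent.N603.TH.Divergent f g :=
  ⟨Pool.Agent.N603.TH.linear_ne_zero h, Pool.Agent.N603.TH.divergent_linear h⟩

theorem rich_form (u v : Fin 2 → ℤ) (h : u 0 * v 1 - u 1 * v 0 ≠ 0) : Rich (form u) (form v) := by
  classical
  left
  have hC : ∀ (i : Fin 2) (a : ℤ), i ∉ (C a : MvPolynomial (Fin 2) ℤ).vars := by
    intro i a
    rw [vars_C]
    exact Finset.notMem_empty i
  have hCX : ∀ (i j : Fin 2) (a : ℤ), i ≠ j → i ∉ (C a * X j : MvPolynomial (Fin 2) ℤ).vars := by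
    intro i j a hij hi
    have h1 := vars_mul (C a : MvPolynomial (Fin 2) ℤ) (X j) hi
    rw [vars_C, vars_X, Finset.empty_union, Finset.mem_singleton] at h1
    exact hij h1
  have hne : ∀ (j : Fin 2) (a : ℤ), a ≠ 0 → (C a * X j : MvPolynomial (Fin 2) ℤ) ≠ 0 :=
    fun j a ha => mul_ne_zero (by rwa [Ne, C_eq_zero]) (X_ne_zero j)
  by_cases h0 : u 0 = 0
  · have h1 : u 1 ≠ 0 := by
      rintro h1
      apply h
      rw [h0, h1]
      ring
    refine ⟨1, C (u 1), C (u 0) * X 0, C (v 1), - C (u 1), C (u 0 * v 1 - u 1 * v 0) * X 0,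
      hC _ _, hCX _ _ _ (by decide), hCX _ _ _ (by decide), by rwa [Ne, C_eq_zero],
      hne _ _ h, ?_, ?_⟩
    · unfold form
      ring
    · unfold form
      simp only [map_sub, map_mul]
      ring
  · refine ⟨0, C (u 0), C (u 1) * X 1, C (v 0), - C (u 0), C (-(u 0 * v 1 - u 1 * v 0)) * X 1,
      hC _ _, hCX _ _ _ (by decide), hCX _ _ _ (by decide), by rwa [Ne, C_eq_zero],
      hne _ _ (neg_ne_zero.2 h), ?_, ?_⟩
    · unfold form
      ring
    · unfold form
      simp only [map_sub, map_mul, map_neg]
      ring

theorem result : (∀ᵐ α ∂(volume.restrict (Set.Ioo (0 : ℝ) 1)), IsNormal α) ∧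
    (∀ α : ℝ, IsNormal α → OneNullSet (convergent α)) ∧
    ∀ u v : Fin 2 → ℤ, u 0 * v 1 - u 1 * v 0 ≠ 0 → Rich (form u) (form v) := by
  refine ⟨Pool.Agent.N53.CF.t_TYP, fun α hα => ?_, rich_form⟩
  have h1 : convergent α = Pool.Agent.N53.CF.cvg (Pool.Agent.W811.Stu.dig α) := by
    funext n
    unfold convergent Pool.Agent.N53.CF.cvg
    rw [consecutive_eq]
  have h2 : Pool.Agent.N53.CF.CFNormal α := hα
  obtain ⟨E, e1, e2⟩ := Pool.Agent.N18.KM.one_set (κ := Pool.Agent.N18.KM.Dat 2) (convergent α)
    (fun x => Pool.Agent.N618.RO.Bd x.1.1 x.1.2.1 x.1.2.2) fun x => by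
      rw [h1]
      exact Pool.Agent.N53.CF.main _
        (Pool.Agent.N618.RO.bd_null Pool.Agent.N24.RW.crit Pool.Agent.N24.RW.clo x.2.1 x.2.2 _) α h2
  refine ⟨E, e1, fun n κ _ F hF lam hlam Γ hΓ f g hfg => ?_⟩
  have hd : f ≠ 0 ∧ Pool.Agent.N603.TH.Divergent f g := by
    rcases hfg with ⟨i, hi⟩ | hi
    · exact rich_linear hi
    · exact hi
  obtain ⟨D, hD⟩ := exists_bound F hF lam hlam Γ hΓ
  have hfin := e2 ⟨(f, g, D), hd.1, hd.2⟩
  obtain ⟨K, hK⟩ := hfin.bddAbove
  refine ⟨K + 1, fun k hk hkE => hD _ _ ?_⟩
  by_contra hbad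
  have h3 : k ∈ {n : ℕ | n ∉ E ∧ convergent α n ∈ Pool.Agent.N618.RO.Bd f g D} :=
    ⟨hkE, fun hh => hbad hh.2⟩
  have := hK h3
  omega

end Pool.Agent.Results.MP_e573c6_ag.ConvergentsOfNormalNumbers
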