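import Pool.Agent.L5helper14.FDC.Dig
import Pool.Agent.N18.KM.Base
import Pool.Agent.N24.RW.All
import Pool.Agent.Results.MP_e573c6_ag.RandomOrbits

/-!
# MP_e573c6_ag: Zilber-Pink for families of curves in `Y(1)^n` at algebraic parameters of all degrees, with
coefficients obtained from arbitrary integers by changing few randomly chosen digits

The families `F`, the members `X_t = member F lam t ⊂ Y(1)^n`, and the property `ZilberPink Γ X_t` (only
finitely many points of `X_t` are on special subvarieties of codimension at least two, and each proper
special subvariety contains only finitely many points of `X_t`) are those of the starting file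
`FamiliesAlmostAllParameters`: one-parameter families of curves of any genus and any degree, not
necessarily isotrivial, which tend to the cusp `(∞, ..., ∞)` for `t → ∞` in general position
(`GoodOrigin F`).

**Parameters.** `Controlled F lam Γ m u` (starting file `RandomOrbits` of this page) means: the members
`X_t` satisfy `ZilberPink` for all algebraic numbers `t` of any degree `d ≥ 1` which are roots of some
polynomial with integral coefficients, of degree `d`, whose leading coefficient is a multiple of `m`,
and whose next coefficient divides a power of `u`. The other coefficients are arbitrary.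

**Changing few digits.** Let `ι` be a finite set with at least two elements, and for `l ∈ ι` let `b l ≥ 2`
be a base, `K l` and `r l` numbers with `ρ ≤ r l ≤ K l / 2`. Choose `r l` of the `K l` positions
`0, …, K l - 1` at random, for different `l` independently. Replace the digits of a natural number
`N l < (b l) ^ (K l)` at the chosen positions by other digits (`change`), or add to an integer `c l` a
nonzero multiple `D l i (b l) ^ i`, `|D l i| < b l`, for each chosen position `i`; for example (`c l = 0`,
`D l i = 1`) the result is a number with exactly `r l` digits `1`, and the other digits are `0`.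

**Theorem.** Let the bases `b l ≥ 2` be given. There are sets `E 0, E 1, …` of vectors in `ℤ ^ ι` and
proportions `ω ρ` which tend to zero, `ρ → ∞`, such that (`Rare`)
* for ALL `K l`, `r l` with `ρ ≤ r l ≤ K l / 2`, ALL `N l`, and ALL new digits (ALL `c l`, `D l i`) at most
  the proportion `ω ρ` of the choices of the positions gives a vector in `E ρ`;
* for ALL families `F`, `lam`, all finite sets `Γ` of algebraic numbers, and all polynomials `f`, `g` in
  the variables `x_l`, `l ∈ ι`, with integral coefficients, with the condition `Rich f g`,
  `Controlled F lam Γ (f(c)) (g(c))` is true for all vectors `c` which are not in `E ρ`, if `ρ` is large.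

`Rich f g`: `f ≠ 0` and `f = 0` has many points outside of `g = 0` modulo primes, that is, the sum over the
primes `p` of the number of the zeros of `f` modulo `p` which are not zeros of `g`, divided by `p ^ |ι|`,
diverges. Two different coordinates have this property (third part of the result).

For example (`f = x_0`, `g = x_1`, degree one) for most pairs `(c_0, c_1)` obtained by changing few digits
of two arbitrary natural numbers, the member of the family `F` at the rational number `t = c_1 / c_0`, and
the members at all algebraic numbers `t` of any degree `d` which satisfy an equation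
`c_0 t ^ d + c_1 t ^ (d - 1) + a_2 t ^ (d - 2) + … + a_d = 0` with arbitrary integers `a_2, …, a_d`, satisfy
the Zilber-Pink conjecture. This is uniform in the numbers `N l` and in the numbers `K l` of the digits,
which may be arbitrarily large in comparison with `r l`.

The proof: the vectors `c` for which `f(c) = 0` or no prime `p > D` divides `f(c)` but not `g(c)` are a
pronull set (its closure in the product of the `ℤ_p ^ ι`, `p` prime to `M`, has measure zero for all `M`).
The new part is the equidistribution of changed digits modulo fixed integers `Q` which are prime to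
`(b l)²!`: the exponential sums are elementary symmetric functions of roots of unity in which
neighbouring ones are different, because `D' b - D` is not divisible by any prime `> b ^ 2`, and the
bound of helper894 for symmetric functions applies (`Pool.Agent.L5helper14.FDC`).
-/

set_option autoImplicit false

namespace Pool.Agent.Results.MP_e573c6_ag.FewDigitChanges

open MvPolynomial Filter Topology
open Pool.Agent.L5helper14.FDC (Rare rare_family)
open Pool.Agent.Results.MP_e573c6_ag.FamiliesAlmostAllParameters
open Pool.Agent.Results.MP_e573c6_ag.RandomOrbits (Controlled exists_bound)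

/-- The hypersurface `f = 0` has many points outside of `g = 0` modulo primes: the sum over the primes `p`
of the densities of the points of `f = 0` outside of `g = 0` modulo `p` diverges. -/
def Rich {s : ℕ} (f g : MvPolynomial (Fin s) ℤ) : Prop :=
  f ≠ 0 ∧ ¬ Summable fun p : ℕ => if p.Prime then
    ({v : Fin s → ZMod p | aeval v f = 0 ∧ aeval v g ≠ 0}.ncard : ℝ) / (p : ℝ) ^ s else 0

theorem rich_coordinates {s : ℕ} {i j : Fin s} (hij : i ≠ j) :
    Rich (X i : MvPolynomial (Fin s) ℤ) (X j) := by
  classical
  have h1 : Pool.Agent.N603.TH.LinearIn i (X i : MvPolynomial (Fin s) ℤ) (X j) := by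
    refine ⟨1, 0, 0, 1, X j, ?_, ?_, ?_, one_ne_zero, X_ne_zero j, by ring, by ring⟩
    · rw [vars_one]; exact Finset.notMem_empty i
    · rw [vars_0]; exact Finset.notMem_empty i
    · rw [vars_X, Finset.mem_singleton]; exact hij
  exact ⟨X_ne_zero i, Pool.Agent.N603.TH.divergent_linear h1⟩

theorem result {s : ℕ} (b : Fin s → ℕ) (hb : ∀ l, 2 ≤ b l) :
    (∃ (E : ℕ → Set (Fin s → ℤ)) (ω : ℕ → ℝ), Rare b E ω ∧
      ∀ (n : ℕ) (κ : Type) [Finite κ]
        (F : κ → MvPolynomial (Fin n × Bool) (Polynomial (algebraicClosure ℚ ℂ))), GoodOrigin F →
        ∀ lam : Fin n → Polynomial (algebraicClosure ℚ ℂ), (∀ l, 0 < (lam l).natDegree) →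
        ∀ Γ : Finset ℂ, (∀ γ ∈ Γ, IsAlgebraic ℚ γ) →
        ∀ f g : MvPolynomial (Fin s) ℤ, Rich f g →
          ∃ ρ₀ : ℕ, ∀ ρ, ρ₀ ≤ ρ → ∀ c : Fin s → ℤ, c ∉ E ρ →
            Controlled F lam (Γ : Set ℂ) (eval c f) (eval c g)) ∧
    ∀ i j : Fin s, i ≠ j → Rich (X i : MvPolynomial (Fin s) ℤ) (X j) := by
  refine ⟨?_, fun i j hij => rich_coordinates hij⟩
  obtain ⟨E, ω, h1, h2⟩ := rare_family (κ := Pool.Agent.N18.KM.Dat s) b hb
    (fun x => Pool.Agent.N618.RO.Bd x.1.1 x.1.2.1 x.1.2.2)
    (fun A B hA hB => Pool.Agent.N24.RW.Clo.union hA hB)
    fun x => Pool.Agent.N618.RO.bd_null Pool.Agent.N24.RW.crit Pool.Agent.N24.RW.clo x.2.1 x.2.2 _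
  refine ⟨E, ω, h1, fun n κ _ F hF lam hlam Γ hΓ f g hfg => ?_⟩
  obtain ⟨D, hD⟩ := exists_bound F hF lam hlam Γ hΓ
  obtain ⟨ρ₀, hρ₀⟩ := h2 ⟨(f, g, D), hfg⟩
  refine ⟨ρ₀, fun ρ hρ c hc => hD _ _ ?_⟩
  by_contra hbad
  exact hc (hρ₀ ρ hρ fun hh => hbad hh.2)

end Pool.Agent.Results.MP_e573c6_ag.FewDigitChanges
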