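import Pool.Agent.L5helper14.FDC.Ind
import Pool.Agent.N18.KM.Base
import Pool.Agent.N24.RW.All
import Pool.Agent.Results.MP_e573c6_ag.RandomOrbits

/-!
# MP_e573c6_ag: Zilber-Pink for families of curves in `Y(1)^n` at algebraic parameters of all degrees, with
coefficients which are palindromes or have prescribed sets of digits, in all bases

The families `F`, the members `X_t = member F lam t ⊂ Y(1)^n`, and the property `ZilberPink Γ X_t` (only
finitely many points of `X_t` are on special subvarieties of codimension at least two, and each proper
special subvariety contains only finitely many points of `X_t`) are those of the starting file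
`FamiliesAlmostAllParameters`: one-parameter families of curves of any genus and any degree, not
necessarily isotrivial, which tend to the cusp `(∞, ..., ∞)` for `t → ∞` in general position
(`GoodOrigin F`).

**Parameters.** `Controlled F lam Γ m u` (starting file `RandomOrbits` of this page) means: the members
`X_t` satisfy `ZilberPink` for all algebraic numbers `t` of any degree `d ≥ 1` which are roots of some
polynomial with integral coefficients, of degree `d`, whose leading coefficient is a multiple of `m`,
and whose next coefficient divides a power of `u`. The other coefficients are arbitrary.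

**Sparse sets.** Let `b ≥ 2` be a base and `g ≥ 1`. `Sparse b g ρ S` means that `S` is one of the following
finite sets of natural numbers.
* The numbers `m < b ^ K`, `K ≥ ρ`, whose digit number `i` is in `D i` for all `i < K` (`numbers b K D`). The
  nonempty sets `D i` of digits are arbitrary, but in each block of `g` consecutive positions at least one of
  them has at least two members (`Free b g K D`). For example all digits are `0` or `1`; or all digits are
  prescribed except every `g`-th one, for which there are two possibilities (`2 ^ (K / g)` numbers).
* The palindromes with `n ≥ ρ` digits in base `b`.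

**Theorem.** There are sets `E 0, E 1, …` of vectors in `ℤ ^ s` such that (`RareAll`)
* for all bases `b l ≥ 2`, `g ≥ 1` and `ε > 0`, for all large `ρ`, ALL sets `S l` with
  `Sparse (b l) g ρ (S l)` and ALL integers `c l`, at most the proportion `ε` of the vectors `c + x`, `x l ∈ S l`,
  are in `E ρ`;
* for ALL families `F`, `lam`, all finite sets `Γ` of algebraic numbers, and all polynomials `f`, `g` in
  the variables `x_l` with integral coefficients, with the condition `Rich f g`,
  `Controlled F lam Γ (f(c)) (g(c))` is true for all vectors `c` which are not in `E ρ`, if `ρ` is large.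

`Rich f g`: `f ≠ 0` and `f = 0` has many points outside of `g = 0` modulo primes, that is, the sum over the
primes `p` of the number of the zeros of `f` modulo `p` which are not zeros of `g`, divided by `p ^ s`,
diverges. Two different coordinates have this property (third part of the result).

For example (`s = 2`, `f = x_0`, `g = x_1`, degree one) for 100% of the pairs `(c_0, c_1)` of palindromes, in
two arbitrary bases, or for a palindrome `c_0` in one base and a number `c_1` with the digits `0` and `1` in
another one, the member of the family `F` at the rational number `t = c_1 / c_0`, and the members at all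
algebraic numbers `t` of any degree `d` which satisfy an equation
`c_0 t ^ d + c_1 t ^ (d - 1) + a_2 t ^ (d - 2) + … + a_d = 0` with arbitrary integers `a_2, …, a_d`, satisfy
the Zilber-Pink conjecture. The exceptional sets `E ρ` do not depend on the family, on the bases, or on the
sets of digits.

The proof: the vectors `c` for which `f(c) = 0` or no prime `p > D` divides `f(c)` but not `g(c)` are a
pronull set (its closure in the product of the `ℤ_p ^ s`, `p` prime to `M`, has measure zero for all `M`).
The new part (`Pool.Agent.L5helper14.FDC.Ind`) is the equidistribution of the members of the sparse sets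
modulo fixed integers `Q` which are prime to `(b l)²!`, uniformly in the sets: the exponential sums are
products over the positions. For palindromes the weights of the positions `i` and `n - 1 - i` cannot vanish
together with those of the next pair modulo a divisor of `Q`, as `b² - 1` is prime to `Q`.
-/

set_option autoImplicit false

namespace Pool.Agent.Results.MP_e573c6_ag.PrescribedDigits

open MvPolynomial Filter Topology
open Pool.Agent.L5helper14.FDC (RareAll rareAll_family)
open Pool.Agent.Results.MP_e573c6_ag.FamiliesAlmostAllParameters
open Pool.Agent.Results.MP_e573c6_ag.RandomOrbits (Controlled exists_bound)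

/-- The hypersurface `f = 0` has many points outside of `g = 0` modulo primes: the sum over the primes `p`
of the densities of the points of `f = 0` outside of `g = 0` modulo `p` diverges. -/
def Rich {s : ℕ} (f g : MvPolynomial (Fin s) ℤ) : Prop :=
  f ≠ 0 ∧ ¬ Summable fun p : ℕ => if p.Prime then
    ({v : Fin s → ZMod p | aeval v f = 0 ∧ aeval v g ≠ 0}.ncard : ℝ) / (p : ℝ) ^ s else 0

theorem rich_coordinates {s : ℕ} {i j : Fin s} (hij : i ≠ j) :
    Rich (X i : MvPolynomial (Fin s) ℤ) (X j) := by
  classical
  have h1 : Pool.Agent.N603.TH.LinearIn i (X i : MvPolynomial (Fin s) ℤ) (X j) := by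
    refine ⟨1, 0, 0, 1, X j, ?_, ?_, ?_, one_ne_zero, X_ne_zero j, by ring, by ring⟩
    · rw [vars_one]; exact Finset.notMem_empty i
    · rw [vars_0]; exact Finset.notMem_empty i
    · rw [vars_X, Finset.mem_singleton]; exact hij
  exact ⟨X_ne_zero i, Pool.Agent.N603.TH.divergent_linear h1⟩

theorem result {s : ℕ} :
    (∃ E : ℕ → Set (Fin s → ℤ), RareAll E ∧
      ∀ (n : ℕ) (κ : Type) [Finite κ]
        (F : κ → MvPolynomial (Fin n × Bool) (Polynomial (algebraicClosure ℚ ℂ))), GoodOrigin F →
        ∀ lam : Fin n → Polynomial (algebraicClosure ℚ ℂ), (∀ l, 0 < (lam l).natDegree) →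
        ∀ Γ : Finset ℂ, (∀ γ ∈ Γ, IsAlgebraic ℚ γ) →
        ∀ f g : MvPolynomial (Fin s) ℤ, Rich f g →
          ∃ ρ₀ : ℕ, ∀ ρ, ρ₀ ≤ ρ → ∀ c : Fin s → ℤ, c ∉ E ρ →
            Controlled F lam (Γ : Set ℂ) (eval c f) (eval c g)) ∧
    ∀ i j : Fin s, i ≠ j → Rich (X i : MvPolynomial (Fin s) ℤ) (X j) := by
  refine ⟨?_, fun i j hij => rich_coordinates hij⟩
  obtain ⟨E, h1, h2⟩ := rareAll_family (κ := Pool.Agent.N18.KM.Dat s)
    (fun x => Pool.Agent.N618.RO.Bd x.1.1 x.1.2.1 x.1.2.2)
    (fun A B hA hB => Pool.Agent.N24.RW.Clo.union hA hB)
    fun x => Pool.Agent.N618.RO.bd_null Pool.Agent.N24.RW.crit Pool.Agent.N24.RW.clo x.2.1 x.2.2 _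
  refine ⟨E, h1, fun n κ _ F hF lam hlam Γ hΓ f g hfg => ?_⟩
  obtain ⟨D, hD⟩ := exists_bound F hF lam hlam Γ hΓ
  obtain ⟨ρ₀, hρ₀⟩ := h2 ⟨(f, g, D), hfg⟩
  refine ⟨ρ₀, fun ρ hρ c hc => hD _ _ ?_⟩
  by_contra hbad
  exact hc (hρ₀ ρ hρ fun hh => hbad hh.2)

end Pool.Agent.Results.MP_e573c6_ag.PrescribedDigits
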