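import Pool.Agent.V1138.FP.Curve
import Pool.Agent.Y152.RP.Main

/-!
# MP_e573c6_ag: one-parameter families of curves in products of modular curves with three degenerate
members: no atypical points on all but finitely many members with parameters of bounded degree, with
radical parameters, and with roots of unity as parameters

The Shimura variety `Y(1)^n` is identified with `ℂ^n` by the elliptic modular function
`jj = j = E₄³ / Δ`. The Shimura varieties are the products of `n` modular curves of any levels, and
their images in `Y(1)^n`; `n` is arbitrary.

**Families.** The families `X_t = {x | ∃ y ∈ B_t, ∃ s, ∀ i, R_i (s_i, x_i) = 0, c_i (t) s_i = A_i (y) / B_i (y)}`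
(`scaledImage`) of curves in `Y(1)^n` are those of the starting result `CurveFamilies` of this problem.
The family degenerates at the rational values `t = α_1, …, α_M` of the parameter: no point of
`B_{α_l}` lies on two of the divisors of the `f_i = A_i / B_i`, and the `c_i` have zeros of orders
`e_{l i} > 0` at `α_l`.

**Condition on the orders** (`IndependentOnPolygons`, for level one, `T = 1`). If `U` is a nonempty set
of degenerate members and `i l ≠ j l`, `l ∈ U`, are coordinates such that every coordinate occurs an
even number of times among all the `i l`, `j l`, then the product of the numbers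
`e_{l, i l} e_{l, j l}`, `l ∈ U`, is not a square; in general (`T` bounds the degrees of the `R_i`) the
product of the `q_l e_{l, i l} e_{l, j l}` is not a square for all `1 ≤ q_l ≤ T ^ 4`.
(Example: all `e_{l i}` are different prime numbers and `T = 1`.)

**Theorem.** The set `X_t` has no point at all on special subvarieties of codimension at least two,
`atyp(X_t) = ∅`, for all but finitely many
1. algebraic numbers `t` of degree at most `d` over `ℚ`, if `M ≥ 3 + 2 d` and the `α_l` are distinct,
2. complex numbers `t` of which some power `t^N`, `N > 0`, is rational, if `M ≥ 5` and the `α_l`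
   are nonzero and have distinct absolute values,
3. roots of unity `t`, if `M ≥ 3` and `|α_l| ≠ 0, 1` for all `l`.
The constant coordinates of the special subvarieties can be special points or integral over the ring
generated by any given finite subset `Γ` of `K`.

In the starting result `CurveFamilies` the numbers of degenerate members are `4 + 2 d`, `6` and `4`
(for orders with the pairwise condition of that file). So in 3. three members suffice instead of four.
The geometric part (three places for a curve) and the arithmetic part (the places exist) were proved in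
the files `V1138.FP`, `V11322.ZF` and `Y152.RP`, `Y152.BD`; they have been combined before for
parameters in backward orbits (`MP_6e1a06_nt.BackwardOrbits`).

Idea of proof: `t` is near to three of the `α_l` at places of `ℂ` above large primes. At such a place
all coordinates but one of a point of `X_t` have poles, of orders proportional to the `e_{l i}`. If the
point is on a special subvariety of codimension at least two then at each of the three places two
coordinates in the same class have poles, so the product of their orders is a square up to bounded
factors and the degrees of the isogenies; the degrees cancel along the cycles of the graph with these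
three edges.
-/

set_option autoImplicit false

namespace Pool.Agent.Results.MP_e573c6_ag.ThreeDegenerateMembers

open MvPolynomial
open Pool.Agent.Y152.RP.Fam (SpecialVariety InGeneralPosition scaledImage)
open Pool.Agent.V1138.FP (IndependentOnPolygons atyp fewCurves)

/-- `t` is algebraic over the rational numbers, of degree at most `d`. -/
def DegreeAtMost (d : ℕ) (t : ℂ) : Prop :=
  ∃ F : Polynomial ℤ, F ≠ 0 ∧ F.natDegree ≤ d ∧ Polynomial.aeval t F = 0

/-- Some power of `t` with positive exponent is a rational number. -/
def IsRadical (t : ℂ) : Prop := ∃ N : ℕ, 0 < N ∧ ∃ q : ℚ, t ^ N = (q : ℂ)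

/-- `t` is a root of unity. -/
def IsRootOfUnity (t : ℂ) : Prop := ∃ N : ℕ, 0 < N ∧ t ^ N = 1

/-- One-parameter families of curves which degenerate at sufficiently many rational parameters (three
more than needed for the arithmetic): all but finitely many of the members with parameters of bounded
degree (with radical parameters, with roots of unity as parameters) have no atypical points. -/
theorem result (K : Subfield ℂ) [Countable K] (κ : Type) [Finite κ] (N n M T : ℕ)
    (G : κ → MvPolynomial (Fin (N + 1)) (Polynomial K)) (hG : ∀ k, ∃ e, (G k).IsHomogeneous e)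
    (A B : Fin n → MvPolynomial (Fin (N + 1)) (Polynomial K)) (δ : Fin n → ℕ)
    (hA : ∀ i, (A i).IsHomogeneous (δ i)) (hB : ∀ i, (B i).IsHomogeneous (δ i))
    (R : Fin n → Polynomial (Polynomial K)) (hR : ∀ i, (R i).Monic)
    (hT : ∀ i u w, ((R i).coeff u).coeff w ≠ 0 → u ≤ T ∧ w ≤ T)
    (c : Fin n → Polynomial K) (α : Fin M → ℚ)
    (hind : IndependentOnPolygons T fun l i => (c i).rootMultiplicity ((α l : ℚ) : K))
    (hpos : ∀ l, InGeneralPosition ((α l : ℚ) : ℂ) 1 G A B) (Γ : Finset ℂ)
    (hΓ : ∀ γ ∈ Γ, γ ∈ K) :
    (Function.Injective α → ∀ d : ℕ, 3 + 2 * d ≤ M →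
      {t : ℂ | DegreeAtMost d t ∧ atyp Γ (scaledImage t G A B R c) ≠ ∅}.Finite) ∧
    ((∀ l, α l ≠ 0) → (∀ l l', l ≠ l' → |α l| ≠ |α l'|) → 5 ≤ M →
      {t : ℂ | IsRadical t ∧ atyp Γ (scaledImage t G A B R c) ≠ ∅}.Finite) ∧
    ((∀ l, α l ≠ 0 ∧ |α l| ≠ 1) → 3 ≤ M →
      {t : ℂ | IsRootOfUnity t ∧ atyp Γ (scaledImage t G A B R c) ≠ ∅}.Finite) := by
  have hrad : ∀ t ∈ {t : ℂ | IsRadical t}, IsAlgebraic ℤ t := fun t ht =>
    Pool.Agent.Y152.RP.alg_of_rad ht
  have hun : ∀ t ∈ {t : ℂ | IsRootOfUnity t}, IsAlgebraic ℤ t := by
    rintro t ⟨N, hN, ht⟩
    exact Pool.Agent.Y152.RP.alg_of_rad ⟨N, hN, 1, by rw [ht, Rat.cast_one]⟩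
  have hdeg : ∀ d, ∀ t ∈ {t : ℂ | DegreeAtMost d t}, IsAlgebraic ℤ t := by
    rintro d t ⟨F, hF0, -, hFt⟩
    exact ⟨F, hF0, hFt⟩
  refine ⟨fun hinj d hM => ?_, fun h0 hdist hM => ?_, fun hne hM => ?_⟩
  · exact fewCurves K κ N n M T G hG A B δ hA hB R hR hT c α hind hpos Γ hΓ _ (hdeg d) (by omega)
      fun D => Pool.Agent.Y152.BD.finite_badD D d (by omega) α hinj
  · exact fewCurves K κ N n M T G hG A B δ hA hB R hR hT c α hind hpos Γ hΓ _ hrad (by omega)
      fun D => Pool.Agent.Y152.RP.arithMain D _ M (by omega) α h0 hdist
  · exact fewCurves K κ N n M T G hG A B δ hA hB R hR hT c α hind hpos Γ hΓ _ hun hM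
      fun D => Pool.Agent.Y152.RP.unityMain hM α (fun l => (hne l).1) (fun l => (hne l).2) D

end Pool.Agent.Results.MP_e573c6_ag.ThreeDegenerateMembers
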